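import Pool.Agent.H961R2.Lev.Stubs

/-! F1: consequences of the main comparison: the bound on the imaginary axis (helper903). -/

open MeasureTheory Set Filter Topology InnerProductSpace Complex

namespace H961Lev

theorem F1_pos {E : Set ℝ} {U : ℂ → ℝ} (hU : IsLevin E U) : PosHalf U where
  cont := hU.cont.continuousOn
  harm := by
    intro z hz
    refine hU.harm z ?_
    rintro ⟨x, _, rfl⟩
    simp at hz
  nonneg := by
    intro z _
    by_cases h : z ∈ ((fun x : ℝ => (x : ℂ)) '' E)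
    · obtain ⟨x, hx, rfl⟩ := h
      exact (hU.zero x hx).ge
    · exact (hU.pos z h).le

theorem F1_int (hP4 : S_P4) {E : Set ℝ} {U : ℂ → ℝ} (hU : IsLevin E U) (y : ℝ) (hy : 0 < y) :
    Integrable (fun t : ℝ => 1 / (t ^ 2 + y ^ 2) * U t) ∧
      ∫ t : ℝ, 1 / (t ^ 2 + y ^ 2) * U t = Real.pi * (U (y * I) / y - 1) := by
  obtain ⟨-, h⟩ := hP4 U 1 (F1_pos hU) hU.norm
  obtain ⟨hi, he⟩ := h 0 y hy
  have hpi := Real.pi_pos
  have hfun : (fun t : ℝ => 1 / (t ^ 2 + y ^ 2) * U t) =
      fun t : ℝ => (Real.pi / y) * (PK y (0 - t) * U t) := by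
    funext t
    have h1 : (0 : ℝ) < t ^ 2 + y ^ 2 := by positivity
    unfold PK
    rw [zero_sub, neg_sq]
    field_simp
  constructor
  · rw [hfun]
    exact hi.const_mul _
  · rw [hfun, integral_const_mul]
    have h2 : U (y * I) = 1 * y + ∫ t : ℝ, PK y (0 - t) * U t := by
      rw [← he]
      simp
    have h3 : ∫ t : ℝ, PK y (0 - t) * U t = U (y * I) - y := by linarith
    rw [h3]
    field_simp

theorem T_F1 : S_P4 → S_M2 → S_F0 → S_F1 := by
  intro hP4 hM2 hF0 δ E U hδ hδ1 hE hU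
  have hUt := hM2 δ hδ hδ1
  have hpi := Real.pi_pos
  have hmono : ∀ s b : ℝ, 0 < s → s < b →
      (Ut δ (b * I) - U (b * I)) / b ≤ (Ut δ (s * I) - U (s * I)) / s := by
    intro s b hs hsb
    have hb : 0 < b := hs.trans hsb
    have key : ∀ {E' : Set ℝ} {V : ℂ → ℝ}, IsLevin E' V →
        ∫ t : ℝ, (1 / (t ^ 2 + s ^ 2) - 1 / (t ^ 2 + b ^ 2)) * V t =
          Real.pi * (V (s * I) / s - V (b * I) / b) := by
      intro E' V hV
      obtain ⟨i1, e1⟩ := F1_int hP4 hV s hs
      obtain ⟨i2, e2⟩ := F1_int hP4 hV b hb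
      have e3 : (fun t : ℝ => (1 / (t ^ 2 + s ^ 2) - 1 / (t ^ 2 + b ^ 2)) * V t) =
          fun t : ℝ => 1 / (t ^ 2 + s ^ 2) * V t - 1 / (t ^ 2 + b ^ 2) * V t := by
        funext t
        ring
      rw [e3, integral_sub i1 i2, e1, e2]
      ring
    have h := hF0 δ E U hδ hδ1 hE hU s b hs hsb
    rw [key hU, key hUt] at h
    have h' := le_of_mul_le_mul_left h hpi
    rw [sub_div, sub_div]
    linarith
  have hlim : Tendsto (fun b : ℝ => (Ut δ (b * I) - U (b * I)) / b) atTop (𝓝 0) := by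
    have := hUt.norm.sub hU.norm
    rw [sub_self] at this
    refine this.congr fun b => ?_
    rw [sub_div]
  have hle : ∀ y : ℝ, 0 < y → U (y * I) ≤ Ut δ (y * I) := by
    intro y hy
    have h1 : 0 ≤ (Ut δ (y * I) - U (y * I)) / y := by
      refine le_of_tendsto hlim ?_
      filter_upwards [eventually_gt_atTop y] with b hb
      exact hmono y b hy hb
    by_contra hcon
    push Not at hcon
    have h2 : (Ut δ (y * I) - U (y * I)) / y < 0 := div_neg_of_neg_of_pos (by linarith) hy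
    linarith
  refine ⟨hmono, hle, ?_⟩
  have c0 : ∀ {V : ℂ → ℝ}, Continuous V →
      Tendsto (fun y : ℝ => V ((y : ℂ) * I)) (𝓝[>] 0) (𝓝 (V 0)) := by
    intro V hV
    have h1 : Continuous fun y : ℝ => V ((y : ℂ) * I) := by fun_prop
    have h2 := h1.tendsto 0
    simp only [Complex.ofReal_zero, zero_mul] at h2
    exact h2.mono_left nhdsWithin_le_nhds
  refine le_of_tendsto_of_tendsto (c0 hU.cont) (c0 hUt.cont) ?_
  filter_upwards [self_mem_nhdsWithin] with y hy
  exact hle y hy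

end H961Lev
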