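import Pool.Agent.H961R2.Lev.Stubs

/-! F2: equality at `0` gives equality on the imaginary axis (helper903). -/

open MeasureTheory Set Filter Topology InnerProductSpace Complex

namespace H961Lev

/-- a real function on `ℂ`, symmetric with respect to conjugation and differentiable at `0`, has
zero derivative at `0` in the imaginary direction -/
theorem F2_slope (V : ℂ → ℝ) (hV : DifferentiableAt ℝ V 0)
    (hs : ∀ z : ℂ, V ((starRingEnd ℂ) z) = V z) :
    Tendsto (fun s : ℝ => (V (s * I) - V 0) / s) (𝓝[>] 0) (𝓝 0) := by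
  have h1 : HasDerivAt (fun s : ℝ => ((s : ℂ) * I)) I 0 := by
    have := (Complex.ofRealCLM.hasDerivAt (x := (0 : ℝ))).mul_const I
    simpa using this
  have h2 : HasDerivAt (fun s : ℝ => V ((s : ℂ) * I)) (fderiv ℝ V 0 I) 0 := by
    have h3 : HasFDerivAt V (fderiv ℝ V 0) ((fun s : ℝ => ((s : ℂ) * I)) 0) := by
      simpa using hV.hasFDerivAt
    exact h3.comp_hasDerivAt (0 : ℝ) h1
  have heven : (fun s : ℝ => V (((-s : ℝ) : ℂ) * I)) = fun s : ℝ => V ((s : ℂ) * I) := by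
    funext s
    rw [← hs ((s : ℂ) * I)]
    congr 1
    simp
  have h4 : HasDerivAt (fun s : ℝ => V ((s : ℂ) * I)) (-(fderiv ℝ V 0 I)) 0 := by
    have h5 : HasDerivAt (fun s : ℝ => V (((-s : ℝ) : ℂ) * I)) (fderiv ℝ V 0 I * (-1)) 0 := by
      have h6 : HasDerivAt (fun s : ℝ => V ((s : ℂ) * I)) (fderiv ℝ V 0 I) ((fun s : ℝ => -s) 0) := by
        simpa using h2
      exact h6.comp (0 : ℝ) (hasDerivAt_neg (0 : ℝ))
    rw [heven] at h5
    simpa using h5
  have h0 : fderiv ℝ V 0 I = 0 := by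
    have := h2.unique h4
    linarith
  rw [h0] at h2
  have h7 := hasDerivAt_iff_tendsto_slope_zero.1 h2
  have h8 : Tendsto (fun s : ℝ => (V (s * I) - V 0) / s) (𝓝[≠] 0) (𝓝 0) := by
    refine h7.congr fun s => ?_
    simp [div_eq_inv_mul]
  exact h8.mono_left (nhdsWithin_mono _ fun s hs => ne_of_gt hs)

theorem F2_diff (E : Set ℝ) (U : ℂ → ℝ) (hU : IsLevin E U) (h0 : 0 < U 0) :
    DifferentiableAt ℝ U 0 := by
  have h1 : (0 : ℂ) ∉ ((fun x : ℝ => (x : ℂ)) '' E) := by
    rintro ⟨x, hx, hx0⟩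
    have hx1 : x = 0 := by simpa using hx0
    subst hx1
    have := hU.zero 0 hx
    simp only [Complex.ofReal_zero] at this
    linarith
  have h2 := (hU.harm 0 h1).1
  exact h2.differentiableAt (by norm_num)

theorem T_F2 : S_M2 → S_M3 → S_F1 → S_F2 := by
  intro hM2 hM3 hF1 δ E U hδ hδ1 hE hU h0 y hy
  obtain ⟨hmono, hle, -⟩ := hF1 δ E U hδ hδ1 hE hU
  have hUt := hM2 δ hδ hδ1
  obtain ⟨hv, hv0, -⟩ := hM3 δ hδ hδ1
  have hUt0 : 0 < Ut δ 0 := by rw [hv]; exact hv0
  have hU0 : 0 < U 0 := by rw [h0]; exact hUt0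
  have t1 := F2_slope U (F2_diff E U hU hU0) hU.symm
  have t2 := F2_slope (Ut δ) (F2_diff _ _ hUt hUt0) hUt.symm
  have t3 : Tendsto (fun s : ℝ => (Ut δ (s * I) - U (s * I)) / s) (𝓝[>] 0) (𝓝 0) := by
    have := t2.sub t1
    rw [sub_zero] at this
    refine this.congr fun s => ?_
    rw [h0, ← sub_div]
    congr 1
    ring
  have h1 : (Ut δ (y * I) - U (y * I)) / y ≤ 0 := by
    refine ge_of_tendsto t3 ?_
    filter_upwards [Ioo_mem_nhdsGT hy] with s hs
    exact hmono s y hs.1 hs.2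
  have h2 := hle y hy
  have h3 : (Ut δ (y * I) - U (y * I)) ≤ 0 := by
    by_contra hcon
    push Not at hcon
    have := div_pos hcon hy
    linarith
  linarith

end H961Lev
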