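import Pool.Agent.H85R2.PIElem

/-!
# Lifting normality of the elementary subgroup modulo a radical ideal
-/

set_option autoImplicit false
set_option linter.unusedSectionVars false

namespace Pool.Agent.H903R2.Rad

open Matrix
open scoped commutatorElement
open Pool.Agent.H85R2.PI

section diag

variable {ι R : Type*} [Fintype ι] [DecidableEq ι] [Ring R]

/-- diagonal matrix with `u` at `o` and `1` elsewhere -/
def Dm (o : ι) (u : R) : Matrix ι ι R := 1 + single o o (u - 1)

theorem Dm_one (o : ι) : Dm o (1 : R) = 1 := by simp [Dm]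

theorem Dm_mul (o : ι) (u v : R) : Dm o u * Dm o v = Dm o (u * v) := by
  rw [Dm, Dm, Dm, mul_add, mul_one, add_mul, one_mul, single_mul_single_same, add_assoc]
  congr 1
  rw [← single_add, ← single_add]
  congr 1
  noncomm_ring

/-- `Dm o u` as a unit -/
def DU (o : ι) (u u' : R) (h : u * u' = 1) (h' : u' * u = 1) : (Matrix ι ι R)ˣ where
  val := Dm o u
  inv := Dm o u'
  val_inv := by rw [Dm_mul, h, Dm_one]
  inv_val := by rw [Dm_mul, h', Dm_one]

theorem Dm_eq_diagonal (o : ι) (u : R) : Dm o u = diagonal (fun k => if k = o then u else 1) := by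
  ext k l
  by_cases hkl : k = l
  · subst hkl
    by_cases hk : k = o
    · subst hk; simp [Dm]
    · simp [Dm, hk, Ne.symm hk]
  · rw [diagonal_apply_ne _ hkl, Dm, Matrix.add_apply, Matrix.one_apply_ne hkl, zero_add,
      single_apply, if_neg]
    rintro ⟨rfl, rfl⟩
    exact hkl rfl

/-- conjugation by a diagonal matrix normalises `E` -/
theorem conj_Dm_mem (o : ι) (u u' : R) (h : u * u' = 1) (h' : u' * u = 1)
    {g : (Matrix ι ι R)ˣ} (hg : g ∈ El ι R) :
    DU o u u' h h' * g * (DU o u u' h h')⁻¹ ∈ El ι R := by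
  have key : El ι R ≤ (El ι R).comap (MulAut.conj (DU o u u' h h')).toMonoidHom := by
    conv_lhs => rw [El]
    rw [Subgroup.closure_le]
    rintro _ ⟨i, j, r, rfl⟩
    show DU o u u' h h' * tv i j r * (DU o u u' h h')⁻¹ ∈ El ι R
    by_cases hij : i = j
    · subst hij
      rw [tv_self, mul_one, mul_inv_cancel]
      exact (El ι R).one_mem
    · have e : DU o u u' h h' * tv i j r * (DU o u u' h h')⁻¹ =
          tv i j ((if i = o then u else 1) * r * (if j = o then u' else 1)) := by
        rw [mul_inv_eq_iff_eq_mul]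
        ext1
        rw [Units.val_mul, Units.val_mul, coe_tv hij, coe_tv hij]
        show Dm o u * _ = _ * Dm o u
        rw [mul_add, mul_one, add_mul, one_mul]
        congr 1
        rw [Dm_eq_diagonal]
        ext k l
        rw [diagonal_mul, mul_diagonal, single_apply, single_apply]
        by_cases hk : i = k ∧ j = l
        · obtain ⟨rfl, rfl⟩ := hk
          by_cases hj : j = o
          · simp [hj, mul_assoc, h']
          · simp [hj]
        · simp [hk]
      rw [e]
      exact tv_mem _ _ _
  exact key hg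

theorem InM_conj_Dm (o : ι) (u u' : R) (h : u * u' = 1) (h' : u' * u = 1)
    {m : Matrix ι ι R} (hm : InM (El ι R) m) : InM (El ι R) (Dm o u * m * Dm o u') := by
  obtain ⟨g, hg, rfl⟩ := hm
  exact ⟨_, conj_Dm_mem o u u' h h' hg, rfl⟩

/-- Whitehead type identity -/
theorem InM_W {k o : ι} (hko : k ≠ o) (a b u' : R) (h : (1 + a * b) * u' = 1)
    (h' : u' * (1 + a * b) = 1) :
    InM (El ι R) (Dm k (1 + a * b) * Dm o (1 - b * u' * a)) := by
  have h1 : InM (El ι R) (((tv k o a * tv o k b : (Matrix ι ι R)ˣ)) : Matrix ι ι R) :=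
    ⟨_, (El ι R).mul_mem (tv_mem _ _ _) (tv_mem _ _ _), rfl⟩
  have h2 : InM (El ι R) ((tv o k (b * u') : (Matrix ι ι R)ˣ) : Matrix ι ι R) :=
    ⟨_, tv_mem _ _ _, rfl⟩
  have h3 : InM (El ι R) ((tv k o (u' * a) : (Matrix ι ι R)ˣ) : Matrix ι ι R) :=
    ⟨_, tv_mem _ _ _, rfl⟩
  refine InM.of_mul_left h2 (InM.of_mul_right h3 ?_)
  convert h1 using 1
  rw [Units.val_mul, coe_tv hko, coe_tv (Ne.symm hko), coe_tv (Ne.symm hko), coe_tv hko, Dm, Dm]
  have e1 : (1 + a * b) - 1 = a * b := by noncomm_ring
  have e2 : (1 - b * u' * a) - 1 = -(b * u' * a) := by noncomm_ring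
  rw [e1, e2]
  have e3 : b * u' + b * u' * (a * b) = b := by
    calc b * u' + b * u' * (a * b) = b * (u' * (1 + a * b)) := by noncomm_ring
      _ = b := by rw [h', mul_one]
  have e4 : u' * a + a * b * (u' * a) = a := by
    calc u' * a + a * b * (u' * a) = ((1 + a * b) * u') * a := by noncomm_ring
      _ = a := by rw [h, one_mul]
  have e5 : -(b * u' * a) + b * u' * (u' * a) + b * u' * (a * b) * (u' * a) = 0 := by
    calc -(b * u' * a) + b * u' * (u' * a) + b * u' * (a * b) * (u' * a)
        = -(b * u' * a) + (b * u' + b * u' * (a * b)) * (u' * a) := by noncomm_ring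
      _ = 0 := by rw [e3]; noncomm_ring
  have n1 : ∀ x y : R, (single k k x * single o o y : Matrix ι ι R) = 0 := fun x y =>
    single_mul_single_of_ne (h := hko) ..
  have n2 : ∀ x y : R, (single o k x * single o o y : Matrix ι ι R) = 0 := fun x y =>
    single_mul_single_of_ne (h := hko) ..
  have n3 : ∀ x y : R, (single o o x * single k o y : Matrix ι ι R) = 0 := fun x y =>
    single_mul_single_of_ne (h := Ne.symm hko) ..
  simp only [mul_add, mul_one, add_mul, one_mul, single_mul_single_same, n1, n2, n3,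
    add_zero, mul_zero, zero_mul]
  have fin : ∀ x1 x2 x3 x4 x5 x6 x7 x8 : R,
      (1 : Matrix ι ι R) + single o k x1 + (single k k x2 + single o k x3) +
        single o o x4 + (single k o x5 + single o o x6 + (single k o x7 + single o o x8)) =
      1 + single k k x2 + single o k (x1 + x3) + single k o (x5 + x7) +
        single o o (x4 + x6 + x8) := by
    intro x1 x2 x3 x4 x5 x6 x7 x8
    simp only [single_add]
    abel
  rw [fin, e3, e4, e5, single_zero]
  abel

/-- the column matrix `1 + p α e_k` up to a diagonal matrix -/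
theorem InM_base (h3 : ∀ i j : ι, ∃ k : ι, k ≠ i ∧ k ≠ j) (o k : ι) (p : ι → R) (α y z : R)
    (hy : (1 + p k * α) * y = 1) (hy' : y * (1 + p k * α) = 1)
    (hz : (1 + α * p k) * z = 1) (hz' : z * (1 + α * p k) = 1) :
    InM (El ι R) (ro p (Pi.single k α) * Dm o z) := by
  -- `ro p (single k α) = c * Dm k (1 + p k α)`
  set p' : ι → R := fun l => if l = k then 0 else p l * α * y with hp'
  have hc : InM (El ι R) (ro p' (Pi.single k 1)) := by
    have := InM_col (S := (Set.univ : Set R)) k p' (by simp [hp']) (fun _ => trivial)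
    rwa [ElS_univ] at this
  have hfac : ro p (Pi.single k α) = ro p' (Pi.single k 1) * Dm k (1 + p k * α) := by
    have e1 : (1 + p k * α) - 1 = p k * α := by noncomm_ring
    rw [Dm, e1, single_eq_vecMulVec']
    change _ = ro p' (Pi.single k 1) * ro (Pi.single k 1) (Pi.single k (p k * α))
    rw [ro_mul]
    have e2 : (Pi.single k (1 : R) : ι → R) ⬝ᵥ Pi.single k 1 = 1 := by simp
    rw [e2, one_smul]
    ext l m
    simp only [ro, Matrix.add_apply, vecMulVec_apply, Pi.single_apply]
    by_cases hm : m = k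
    · subst hm
      by_cases hl : l = m
      · subst hl
        simp [hp']
      · simp only [hp', hl, if_false, if_true, mul_one, zero_mul, add_zero]
        have : p l * α * y + p l * α * y * (p m * α) = p l * α := by
          calc p l * α * y + p l * α * y * (p m * α) = p l * α * (y * (1 + p m * α)) := by
                noncomm_ring
            _ = p l * α := by rw [hy', mul_one]
        rw [add_assoc, this]
    · simp [hm]
  have hyz : 1 - α * y * p k = z := by
    have h1 : (1 + α * p k) * (1 - α * y * p k) = 1 := by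
      have : α * y + α * p k * α * y = α := by
        calc α * y + α * p k * α * y = α * ((1 + p k * α) * y) := by noncomm_ring
          _ = α := by rw [hy, mul_one]
      calc (1 + α * p k) * (1 - α * y * p k)
          = 1 + α * p k - (α * y + α * p k * α * y) * p k := by noncomm_ring
        _ = 1 := by rw [this]; noncomm_ring
    calc 1 - α * y * p k = (z * (1 + α * p k)) * (1 - α * y * p k) := by rw [hz', one_mul]
      _ = z * ((1 + α * p k) * (1 - α * y * p k)) := by rw [mul_assoc]
      _ = z := by rw [h1, mul_one]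
  have key : InM (El ι R) (Dm k (1 + p k * α) * Dm o z) := by
    by_cases hko : k = o
    · subst hko
      obtain ⟨l, hl, -⟩ := h3 k k
      have w1 := InM_W (Ne.symm hl) (p k) α y hy hy'
      rw [hyz] at w1
      have w2 := InM_W hl (α * p k) 1 z (by rw [mul_one]; exact hz) (by rw [mul_one]; exact hz')
      have hz2 : 1 - 1 * z * (α * p k) = z := by
        calc 1 - 1 * z * (α * p k) = 1 - z * (1 + α * p k) + z := by noncomm_ring
          _ = z := by rw [hz']; noncomm_ring
      rw [hz2, mul_one] at w2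
      have := w1.mul w2
      rw [mul_assoc, ← mul_assoc (Dm l z), Dm_mul, hz', Dm_one, one_mul] at this
      exact this
    · have w1 := InM_W hko (p k) α y hy hy'
      rwa [hyz] at w1
  rw [hfac, mul_assoc]
  exact hc.mul key

/-- `1 + p q` with `q` in the radical and `q p = 0` is elementary -/
theorem InM_radical (h3 : ∀ i j : ι, ∃ k : ι, k ≠ i ∧ k ≠ j) (J : Ideal R) [J.IsTwoSided]
    (hJ : ∀ x ∈ J, IsUnit (1 + x)) (p q : ι → R) (hq : ∀ k, q k ∈ J) (hqp : q ⬝ᵥ p = 0) :
    InM (El ι R) (ro p q) := by
  rcases isEmpty_or_nonempty ι with hι | ⟨⟨o⟩⟩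
  · have : ro p q = 1 := Subsingleton.elim _ _
    rw [this]
    exact InM.one _
  have key : ∀ s : Finset ι, ∀ w : R,
      w * (1 + ∑ k ∈ s, q k * p k) = 1 → (1 + ∑ k ∈ s, q k * p k) * w = 1 →
      InM (El ι R) (ro p (∑ k ∈ s, (Pi.single k (q k) : ι → R)) * Dm o w) := by
    intro s
    induction s using Finset.induction_on with
    | empty =>
      intro w h1 _
      rw [Finset.sum_empty, add_zero, mul_one] at h1
      rw [Finset.sum_empty, ro_zero_right, h1, Dm_one, one_mul]
      exact InM.one _
    | insert k s hk ih =>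
      intro w h1 h2
      rw [Finset.sum_insert hk] at h1 h2
      -- `v = 1 + q^s p`
      have hvJ : ∑ k ∈ s, q k * p k ∈ J := J.sum_mem (fun k _ => J.mul_mem_right _ (hq k))
      obtain ⟨vu, hv⟩ := hJ _ hvJ
      set v : R := 1 + ∑ k ∈ s, q k * p k with hvdef
      set v' : R := ((vu⁻¹ : Rˣ) : R) with hv'def
      have hvv' : v * v' = 1 := by rw [← hv]; exact vu.mul_inv
      have hv'v : v' * v = 1 := by rw [← hv]; exact vu.inv_mul
      set α : R := v' * q k with hα
      have hαJ : α ∈ J := J.mul_mem_left _ (hq k)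
      obtain ⟨zu, hzu⟩ := hJ _ (J.mul_mem_right (p k) hαJ)
      obtain ⟨yu, hyu⟩ := hJ _ (J.mul_mem_left (p k) hαJ)
      set z : R := ((zu⁻¹ : Rˣ) : R) with hzdef
      have hz : (1 + α * p k) * z = 1 := by rw [← hzu]; exact zu.mul_inv
      have hz' : z * (1 + α * p k) = 1 := by rw [← hzu]; exact zu.inv_mul
      have hy : (1 + p k * α) * ((yu⁻¹ : Rˣ) : R) = 1 := by rw [← hyu]; exact yu.mul_inv
      have hy' : ((yu⁻¹ : Rˣ) : R) * (1 + p k * α) = 1 := by rw [← hyu]; exact yu.inv_mul
      have hvα : v * α = q k := by rw [hα, ← mul_assoc, hvv', one_mul]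
      have hsum : 1 + (q k * p k + ∑ k ∈ s, q k * p k) = v * (1 + α * p k) := by
        rw [mul_add, mul_one, ← mul_assoc, hvα, hvdef]
        abel
      rw [hsum] at h1 h2
      have hw : w = z * v' := by
        calc w = w * (v * ((1 + α * p k) * z) * v') := by rw [hz, mul_one, hvv', mul_one]
          _ = (w * (v * (1 + α * p k))) * (z * v') := by simp only [mul_assoc]
          _ = z * v' := by rw [h1, one_mul]
      -- the product formula
      have hprod : ro p (∑ k ∈ s, (Pi.single k (q k) : ι → R)) * ro p (Pi.single k α) =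
          ro p (∑ k ∈ insert k s, (Pi.single k (q k) : ι → R)) := by
        rw [ro_mul, Finset.sum_insert hk]
        have hd : (∑ k ∈ s, (Pi.single k (q k) : ι → R)) ⬝ᵥ p = ∑ k ∈ s, q k * p k := by
          rw [sum_dotProduct]
          exact Finset.sum_congr rfl (fun l _ => by rw [single_dotProduct])
        rw [hd, add_assoc, ← vecMulVec_add, ro, add_assoc, ← vecMulVec_add]
        congr 2
        rw [add_comm]
        congr 1
        rw [← hvα, hvdef, add_mul, one_mul, Pi.single_add, ← Pi.single_smul, smul_eq_mul]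
      have hbase := InM_base h3 o k p α ((yu⁻¹ : Rˣ) : R) z hy hy' hz hz'
      have hconj := InM_conj_Dm o v v' hvv' hv'v hbase
      have hih := ih v' hv'v hvv'
      have := hih.mul hconj
      have e : ro p (∑ k ∈ s, (Pi.single k (q k) : ι → R)) * Dm o v' *
          (Dm o v * (ro p (Pi.single k α) * Dm o z) * Dm o v') =
          ro p (∑ k ∈ insert k s, (Pi.single k (q k) : ι → R)) * Dm o w := by
        rw [← hprod, hw, ← Dm_mul]
        have e1 : Dm o v' * Dm o v = 1 := by rw [Dm_mul, hv'v, Dm_one]
        calc ro p (∑ k ∈ s, (Pi.single k (q k) : ι → R)) * Dm o v' *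
              (Dm o v * (ro p (Pi.single k α) * Dm o z) * Dm o v')
            = ro p (∑ k ∈ s, (Pi.single k (q k) : ι → R)) * (Dm o v' * Dm o v) *
              (ro p (Pi.single k α) * Dm o z) * Dm o v' := by simp only [mul_assoc]
          _ = _ := by rw [e1, mul_one]; simp only [mul_assoc]
      rwa [e] at this
  have h := key Finset.univ 1 ?_ ?_
  · have e : ∑ k, (Pi.single k (q k) : ι → R) = q := by
      ext l
      simp [Finset.sum_apply, Pi.single_apply]
    rwa [e, Dm_one, mul_one] at h
  · have : ∑ k, q k * p k = 0 := hqp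
    rw [this, add_zero, mul_one]
  · have : ∑ k, q k * p k = 0 := hqp
    rw [this, add_zero, mul_one]

end diag

section main

variable {ι R : Type*} [Fintype ι] [DecidableEq ι] [Ring R]

/-- the normal subgroup generated by the elementary matrices with entry in `J` -/
def FJ (ι : Type*) {R : Type*} [Fintype ι] [DecidableEq ι] [Ring R] (J : Ideal R) :
    Subgroup (Matrix ι ι R)ˣ :=
  Subgroup.normalClosure {g | ∃ i j : ι, ∃ x ∈ J, g = tv i j x}

instance FJ_normal (J : Ideal R) : (FJ ι J).Normal := Subgroup.normalClosure_normal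

theorem ElS_le_FJ (J : Ideal R) : ElS ι (J : Set R) ≤ FJ ι J := by
  rw [ElS, Subgroup.closure_le]
  rintro _ ⟨i, j, x, hx, rfl⟩
  exact Subgroup.subset_normalClosure ⟨i, j, x, hx, rfl⟩

theorem FJ_le (h3 : ∀ i j : ι, ∃ k : ι, k ≠ i ∧ k ≠ j) (J : Ideal R) [J.IsTwoSided]
    (hJ : ∀ x ∈ J, IsUnit (1 + x)) : FJ ι J ≤ El ι R := by
  rw [FJ, Subgroup.normalClosure, Subgroup.closure_le]
  intro y hy
  obtain ⟨a, ⟨i, j, x, hx, rfl⟩, hconj⟩ := Group.mem_conjugatesOfSet_iff.1 hy
  obtain ⟨g, hg⟩ := isConj_iff.1 hconj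
  rw [← hg]
  by_cases hij : i = j
  · subst hij
    rw [tv_self, mul_one, mul_inv_cancel]
    exact (El ι R).one_mem
  · show g * tv i j x * g⁻¹ ∈ El ι R
    rw [← InM.of_unit, Units.val_mul, Units.val_mul, coe_tv_ro' hij, conj_ro]
    refine InM_radical h3 J hJ _ _ ?_ ?_
    · intro k
      rw [single_vecMul]
      exact J.mul_mem_right _ hx
    · rw [← dotProduct_mulVec, mulVec_mulVec, Units.inv_mul, one_mulVec, single_dotProduct,
        Pi.single_apply, if_neg (Ne.symm hij), mul_zero]

theorem comm_mem_FJ (J : Ideal R) [J.IsTwoSided]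
    (hJ : ∀ x ∈ J, IsUnit (1 + x)) (e : (Matrix ι ι R)ˣ) (he : e ∈ El ι R)
    (k : (Matrix ι ι R)ˣ) (hk : ∀ i j, (k : Matrix ι ι R) i j - (if i = j then 1 else 0) ∈ J)
    (hk' : ∀ i j, ((k⁻¹ : (Matrix ι ι R)ˣ) : Matrix ι ι R) i j - (if i = j then 1 else 0) ∈ J) :
    ⁅e, k⁆ ∈ FJ ι J := by
  rw [El] at he
  induction he using Subgroup.closure_induction with
  | mem e he =>
    obtain ⟨i, j, r, rfl⟩ := he
    by_cases hij : i = j
    · subst hij
      rw [tv_self, commutatorElement_one_left]
      exact Subgroup.one_mem _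
    · -- the conjugate `k t k⁻¹`
      obtain ⟨yu, hyu⟩ := hJ _ (by simpa using hk i i : (k : Matrix ι ι R) i i - 1 ∈ J)
      rw [add_sub_cancel] at hyu
      set y : R := ((yu⁻¹ : Rˣ) : R) with hydef
      set v : ι → R := (k : Matrix ι ι R) *ᵥ Pi.single i 1 with hv
      set w : ι → R := Pi.single j r ᵥ* ((k⁻¹ : (Matrix ι ι R)ˣ) : Matrix ι ι R) with hw
      have hvl : ∀ l, v l = (k : Matrix ι ι R) l i := by
        intro l; rw [hv, mulVec_single_one, col_apply]
      have hwl : ∀ l, w l = r * ((k⁻¹ : (Matrix ι ι R)ˣ) : Matrix ι ι R) j l := by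
        intro l; rw [hw, single_vecMul]
        rfl
      have hvy : v i * y = 1 := by rw [hvl, ← hyu]; exact yu.mul_inv
      have hyv : y * v i = 1 := by rw [hvl, ← hyu]; exact yu.inv_mul
      have hwv : w ⬝ᵥ v = 0 := by
        rw [hw, hv, ← dotProduct_mulVec, mulVec_mulVec, Units.inv_mul, one_mulVec,
          single_dotProduct, Pi.single_apply, if_neg (Ne.symm hij), mul_zero]
      set v' : ι → R := fun l => v l * y with hv'
      set w2 : ι → R := fun l => v i * w l with hw2
      have hro : ro v w = ro v' w2 := by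
        rw [ro, ro]
        congr 1
        ext l m
        rw [vecMulVec_apply, vecMulVec_apply]
        show v l * w m = v l * y * (v i * w m)
        rw [mul_assoc (v l), ← mul_assoc y, hyv, one_mul]
      have hw2v' : w2 ⬝ᵥ v' = 0 := by
        have : w2 ⬝ᵥ v' = v i * (w ⬝ᵥ v) * y := by
          simp only [dotProduct, hw2, hv', Finset.mul_sum, Finset.sum_mul]
          exact Finset.sum_congr rfl (fun l _ => by simp only [mul_assoc])
        rw [this, hwv, mul_zero, zero_mul]
      set w3 : ι → R := w2 - Pi.single i (w2 i) with hw3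
      set d : ι → R := w3 - Pi.single j r with hd
      have hdi : d i = 0 := by
        simp [hd, hw3, Pi.single_apply, hij]
      have hdJ : ∀ l, d l ∈ J := by
        intro l
        by_cases hl : l = i
        · subst hl; rw [hdi]; exact J.zero_mem
        · have e : d l = v i * (r * (((k⁻¹ : (Matrix ι ι R)ˣ) : Matrix ι ι R) j l -
              (if j = l then 1 else 0))) + (v i - 1) * (r * (if j = l then 1 else 0)) := by
            have e0 : d l = v i * w l - (if l = j then r else 0) := by
              simp only [hd, hw3, hw2, Pi.sub_apply, Pi.single_apply, if_neg hl, sub_zero]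
            rw [e0, hwl]
            by_cases hjl : j = l
            · subst hjl; simp only [if_true, mul_one]; noncomm_ring
            · simp only [hjl, Ne.symm hjl, if_false]; noncomm_ring
          rw [e]
          refine J.add_mem (J.mul_mem_left _ (J.mul_mem_left _ (hk' j l))) (J.mul_mem_right _ ?_)
          rw [hvl]
          simpa using hk i i
      set c : ι → R := v' - Pi.single i 1 with hc
      have hτ0 : c i = 0 := by
        simp [hc, hv', hvy]
      have hτJ : ∀ l, c l ∈ (J : Set R) := by
        intro l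
        by_cases hl : l = i
        · subst hl; rw [hτ0]; exact J.zero_mem
        · simp only [hc, hv', Pi.sub_apply, Pi.single_apply, if_neg hl, sub_zero]
          refine J.mul_mem_right _ ?_
          rw [hvl]
          simpa [hl] using hk l i
      obtain ⟨T, hT, hTv⟩ := InM_col (S := (J : Set R)) i c hτ0 hτJ
      obtain ⟨f, hf, hfv⟩ := InM_row (S := (J : Set R)) i d hdi hdJ
      have hTF := ElS_le_FJ J hT
      have hfF := ElS_le_FJ J hf
      have key : k * tv i j r * k⁻¹ * T = T * (tv i j r * f) := by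
        ext1
        rw [Units.val_mul, Units.val_mul, Units.val_mul, Units.val_mul, Units.val_mul,
          coe_tv_ro' hij, conj_ro, hTv, hfv, ← hv, ← hw, hro, ro_add_right]
        · have e1 : (Pi.single j r : ι → R) + d = w3 := by rw [hd]; abel
          rw [e1, ro_mul, ro_mul, hc, dotProduct_sub, hw2v', dotProduct_single, mul_one, zero_sub]
          have e2 : (Pi.single i (1 : R) : ι → R) ⬝ᵥ Pi.single i 1 = 1 := by simp
          rw [e2, one_smul]
          ext l m
          simp only [Matrix.add_apply, vecMulVec_apply, hw3, Pi.sub_apply, Pi.single_apply,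
            Pi.smul_apply, smul_eq_mul]
          by_cases hm : m = i
          · simp only [hm, if_true]
            noncomm_ring
          · simp only [hm, if_false]
            noncomm_ring
        · rw [single_dotProduct, Pi.single_apply, if_neg (Ne.symm hij), mul_zero]
      have e3 : ⁅tv i j r, k⁆ = tv i j r * (T * f⁻¹) * (tv i j r)⁻¹ * T⁻¹ := by
        have e4 : k * tv i j r * k⁻¹ = T * (tv i j r * f) * T⁻¹ := by
          rw [← key, mul_inv_cancel_right]
        have e5 : ⁅tv i j r, k⁆ = tv i j r * (k * tv i j r * k⁻¹)⁻¹ := by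
          rw [commutatorElement_def]; group
        rw [e5, e4]
        group
      rw [e3]
      exact Subgroup.mul_mem _ ((FJ_normal J).conj_mem _
        (Subgroup.mul_mem _ hTF (Subgroup.inv_mem _ hfF)) _) (Subgroup.inv_mem _ hTF)
  | one => rw [commutatorElement_one_left]; exact Subgroup.one_mem _
  | mul a b _ _ ha hb =>
    have : ⁅a * b, k⁆ = a * ⁅b, k⁆ * a⁻¹ * ⁅a, k⁆ := by
      simp only [commutatorElement_def]; group
    rw [this]
    exact Subgroup.mul_mem _ ((FJ_normal J).conj_mem _ hb a) ha
  | inv a _ ha =>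
    have : ⁅a⁻¹, k⁆ = a⁻¹ * ⁅a, k⁆⁻¹ * (a⁻¹)⁻¹ := by
      simp only [commutatorElement_def]; group
    rw [this]
    exact (FJ_normal J).conj_mem _ (Subgroup.inv_mem _ ha) _

/-- RAD, with the lifting lemma as a hypothesis -/
theorem rad_normal_of {S : Type*} [Ring S]
    (h3 : ∀ i j : ι, ∃ k : ι, k ≠ i ∧ k ≠ j) (φ : R →+* S)
    (hrad : ∀ x : R, φ x = 0 → IsUnit (1 + x))
    (lift : ∀ F : Subgroup (Matrix ι ι R)ˣ, F.Normal → F ≤ El ι R →
      (∀ e ∈ El ι R, ∀ k : (Matrix ι ι R)ˣ, glm ι φ k = 1 → ⁅e, k⁆ ∈ F) →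
      (El ι R).Normal) : (El ι R).Normal := by
  have hJ : ∀ x ∈ RingHom.ker φ, IsUnit (1 + x) := fun x hx => hrad x hx
  refine lift (FJ ι (RingHom.ker φ)) (FJ_normal _) (FJ_le h3 _ hJ) ?_
  intro e he k hk
  have aux : ∀ g : (Matrix ι ι R)ˣ, glm ι φ g = 1 → ∀ i j,
      (g : Matrix ι ι R) i j - (if i = j then 1 else 0) ∈ RingHom.ker φ := by
    intro g hg i j
    rw [RingHom.mem_ker, map_sub, (glm_eq_one_iff φ g).1 hg i j]
    split_ifs <;> simp
  exact comm_mem_FJ _ hJ e he k (aux k hk) (aux k⁻¹ (by rw [map_inv, hk, inv_one]))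

end main

end Pool.Agent.H903R2.Rad
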