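import Pool.Agent.H306R2.RG.StubsA
import Pool.Agent.H509R2.RZ_P1

/-!
Project RG (helper306), task PG8: Poisson summation for the discriminants `±8d`.
-/

set_option autoImplicit false

namespace Pool.Agent.H903R2.RGPG8

open Finset Filter Topology MeasureTheory Pool.Agent.H306R2.RZ Pool.Agent.H306R2.RG
open Pool.Agent.H306R2.RG.StubsA (bb8)

theorem js_mul (a b : ℤ) (n : ℕ) : js (a * b) n = js a n * js b n := by
  unfold js
  rw [jacobiSym.mul_left]
  push_cast
  rfl

theorem js_four {n : ℕ} (hn : Odd n) : js 4 n = 1 := by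
  have hc : Int.gcd 2 n = 1 := by
    have h2 : Nat.Coprime 2 n := (Nat.coprime_two_left).2 hn
    simpa [Int.gcd] using h2
  unfold js
  rw [show (4 : ℤ) = 2 ^ 2 by norm_num, jacobiSym.pow_left, jacobiSym.sq_one hc]
  norm_num

theorem js_neg_one_sq {n : ℕ} : js (-1) n * js (-1) n = 1 := by
  have hc : Int.gcd (-1) n = 1 := by simp [Int.gcd]
  unfold js
  rw [← Int.cast_mul, ← sq, jacobiSym.sq_one hc, Int.cast_one]

theorem js_mod (a : ℤ) (n : ℕ) : js (a + n) n = js a n := by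
  unfold js
  congr 1
  rw [jacobiSym.mod_left (a + n) n, jacobiSym.mod_left a n, Int.add_emod_right]

theorem Gk_neg {n : ℕ} (hn0 : n ≠ 0) (k : ℤ) : Gk (-k) n = js (-1) n * Gk k n := by
  have hn : 0 < n := Nat.pos_of_ne_zero hn0
  have hnR : (n : ℝ) ≠ 0 := by exact_mod_cast hn0
  unfold Gk
  rw [Finset.mul_sum]
  have hinv : ∀ r ∈ range n, (n - (n - r) % n) % n = r := by
    intro r hr
    have hr' := mem_range.1 hr
    rcases Nat.eq_zero_or_pos r with h0 | h0
    · subst h0; simp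
    · have h1 : (n - r) % n = n - r := Nat.mod_eq_of_lt (by omega)
      rw [h1, show n - (n - r) = r by omega, Nat.mod_eq_of_lt hr']
  refine Finset.sum_nbij' (fun r => (n - r) % n) (fun r => (n - r) % n)
    (fun r _ => mem_range.2 (Nat.mod_lt _ hn)) (fun r _ => mem_range.2 (Nat.mod_lt _ hn))
    hinv hinv ?_
  intro r hr
  have hr' := mem_range.1 hr
  rcases Nat.eq_zero_or_pos r with h0 | h0
  · subst h0
    have h2 : js (-1) n * js 0 n = js 0 n := by rw [← js_mul]; norm_num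
    simp only [Nat.sub_zero, Nat.mod_self, Nat.cast_zero, mul_zero, zero_div]
    rw [← mul_assoc, h2]
  · have h1 : (n - r) % n = n - r := Nat.mod_eq_of_lt (by omega)
    simp only [h1]
    rw [← mul_assoc, ← js_mul]
    have e1 : js (-1 * (((n - r : ℕ)) : ℤ)) n = js (r : ℤ) n := by
      have : (-1 * (((n - r : ℕ)) : ℤ)) + n = (r : ℤ) := by
        rw [Nat.cast_sub hr'.le]; ring
      rw [← js_mod, this]
    rw [e1]
    congr 1
    have e2 : 2 * Real.pi * (k : ℝ) * (((n - r : ℕ)) : ℝ) / (n : ℝ) =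
        2 * Real.pi * (((-k : ℤ)) : ℝ) * (r : ℝ) / (n : ℝ) + k * (2 * Real.pi) := by
      rw [Nat.cast_sub hr'.le]
      push_cast
      field_simp
      ring
    rw [e2]
    unfold cas
    rw [Real.cos_add_int_mul_two_pi, Real.sin_add_int_mul_two_pi]

theorem PG8 (ε : ℤ) (hε : ε = 1 ∨ ε = -1) (F : ℝ → ℝ) (hF : TF F) (X : ℝ) (hX : 0 < X) (n : ℕ)
    (hn : Odd n) :
    Summable (fun k : ℤ => bb8 k * Gk k n * Ft F ((ε : ℝ) / 2 * k * X / n)) ∧
    EAg (F8 ε) F X (fun d => js ((F8 ε).e * (d : ℤ)) n) =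
      1 / 2 * ((∑' k : ℤ, bb8 k * Gk k n * Ft F ((ε : ℝ) / 2 * k * X / n)) / n) := by
  classical
  have hn0 : n ≠ 0 := by rintro rfl; exact absurd hn (by decide)
  have hnR : (n : ℝ) ≠ 0 := by exact_mod_cast hn0
  obtain ⟨hS, hE⟩ := Pool.Agent.H509R2.RZP1.P1 F hF X hX n hn
  have h8 : ∀ d : ℕ, js (8 * (d : ℤ)) n = js (2 * (d : ℤ)) n := by
    intro d
    rw [show (8 * (d : ℤ)) = 4 * (2 * d) by ring, js_mul, js_four hn, one_mul]
  rcases hε with rfl | rfl
  · have hU : (fun k : ℤ => bb8 k * Gk k n * Ft F ((((1 : ℤ)) : ℝ) / 2 * k * X / n)) =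
        (fun k : ℤ => (-1 : ℝ) ^ k.natAbs * Gk k n * Ft F ((k : ℝ) * X / (2 * n))) := by
      funext k
      unfold bb8
      congr 2
      push_cast
      field_simp
    rw [hU]
    refine ⟨hS, ?_⟩
    have hEq : EAg (F8 1) F X (fun d => js ((F8 1).e * (d : ℤ)) n) =
        EF F X (fun d => js (8 * (d : ℤ)) n) := by
      unfold EAg EF
      congr 1
      refine tsum_congr fun d => ?_
      have hA : (F8 1).A d ↔ Odd d := Iff.rfl
      have he : (F8 1).e = 2 := by simp [F8]
      by_cases hd : Odd d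
      · rw [if_pos (hA.2 hd), if_pos hd, he]
        show F (d / X) * js (2 * (d : ℤ)) n = F (d / X) * js (8 * (d : ℤ)) n
        rw [h8]
      · rw [if_neg (fun h => hd (hA.1 h)), if_neg hd]
    rw [hEq, hE, ← div_div, div_right_comm, one_div_mul_eq_div]
  · set T : ℤ → ℝ := fun k => (-1 : ℝ) ^ k.natAbs * Gk k n * Ft F ((k : ℝ) * X / (2 * n)) with hT
    have hU : (fun k : ℤ => bb8 k * Gk k n * Ft F ((((-1 : ℤ)) : ℝ) / 2 * k * X / n)) =
        (fun k : ℤ => js (-1) n * T (-k)) := by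
      funext k
      simp only [hT]
      unfold bb8
      rw [Int.natAbs_neg, Gk_neg hn0]
      have e : (((-1 : ℤ)) : ℝ) / 2 * k * X / n = (((-k : ℤ)) : ℝ) * X / (2 * n) := by
        push_cast
        field_simp
      rw [e]
      have := js_neg_one_sq (n := n)
      calc _ = (js (-1) n * js (-1) n) * ((-1 : ℝ) ^ k.natAbs * Gk k n *
            Ft F ((((-k : ℤ)) : ℝ) * X / (2 * n))) := by rw [this, one_mul]
        _ = _ := by ring
    rw [hU]
    have hS' : Summable (fun k : ℤ => T (-k)) := (Equiv.neg ℤ).summable_iff.2 hS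
    refine ⟨hS'.mul_left _, ?_⟩
    have hts : ∑' k : ℤ, js (-1) n * T (-k) = js (-1) n * ∑' k : ℤ, T k := by
      rw [tsum_mul_left]
      congr 1
      exact (Equiv.neg ℤ).tsum_eq T
    rw [hts]
    have hEq : EAg (F8 (-1)) F X (fun d => js ((F8 (-1)).e * (d : ℤ)) n) =
        js (-1) n * EF F X (fun d => js (8 * (d : ℤ)) n) := by
      unfold EAg EF
      rw [← mul_div_assoc, ← tsum_mul_left]
      congr 1
      refine tsum_congr fun d => ?_
      have hA : (F8 (-1)).A d ↔ Odd d := Iff.rfl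
      have he : (F8 (-1)).e = -1 * 2 := by simp [F8]
      by_cases hd : Odd d
      · rw [if_pos (hA.2 hd), if_pos hd, he]
        show F (d / X) * js (-1 * 2 * (d : ℤ)) n = js (-1) n * (F (d / X) * js (8 * (d : ℤ)) n)
        rw [h8, mul_assoc (-1 : ℤ), js_mul (-1)]
        ring
      · rw [if_neg (fun h => hd (hA.1 h)), if_neg hd, mul_zero]
    rw [hEq, hE, ← div_div, div_right_comm, one_div_mul_eq_div]
    ring

end Pool.Agent.H903R2.RGPG8
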