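import Mathlib
import Pool.Agent.H925R3.DD.Stubs

/-! Project DD (helper925), task NZW. -/

set_option autoImplicit false

namespace Pool.Agent.H903R2.DDNZW

open Finset Pool.Agent.H925R3.DC Pool.Agent.H925R3.DD

theorem nzw : Pool.Agent.H925R3.DD.NZW := by
  intro k _ a b n hn Q
  cases Q with
  | zero =>
    rcases Nat.even_or_odd n with h | h
    · obtain ⟨m, hm⟩ := h
      refine ⟨⟨(m, 0), ?_⟩, ?_⟩
      · simp only [monSetW, mem_filter, mem_product, mem_range]
        omega
      · have e : n - 2 * m - 3 * 0 = 0 := by omega
        simp only [monoW, std, e, one_pow, pow_zero, mul_one]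
        exact one_ne_zero
    · obtain ⟨m, hm⟩ := h
      refine ⟨⟨(m - 1, 1), ?_⟩, ?_⟩
      · simp only [monSetW, mem_filter, mem_product, mem_range]
        omega
      · have e : n - 2 * (m - 1) - 3 * 1 = 0 := by omega
        simp only [monoW, std, e, one_pow, pow_zero, mul_one]
        exact one_ne_zero
  | some x y h =>
    refine ⟨⟨(0, 0), ?_⟩, ?_⟩
    · simp only [monSetW, mem_filter, mem_product, mem_range]
      omega
    · simp only [monoW, std, one_pow, pow_zero, mul_one]
      exact one_ne_zero

end Pool.Agent.H903R2.DDNZW
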