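import Mathlib

set_option autoImplicit false

namespace Pool.Agent.H903R2.Hajos

open SimpleGraph

/-- `k`-criticality in the form used by the frozen statement. -/
def Crit (k : ℕ) {n : ℕ} (G : SimpleGraph (Fin n)) : Prop :=
  G.Colorable k ∧ ¬ G.Colorable (k - 1) ∧
    (∀ e ∈ G.edgeSet, (G.deleteEdges {e}).Colorable (k - 1)) ∧
    ∀ x, ∃ y, G.Adj x y

/-- The closure property of a predicate under the two operations through `k`-critical graphs. -/
def Closed (k : ℕ) (P : (n : ℕ) → SimpleGraph (Fin n) → Prop) : Prop :=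
    P k ⊤ ∧
    (∀ (n : ℕ) (G : SimpleGraph (Fin (n + 1))) (H : SimpleGraph (Fin n))
        (u v : Fin (n + 1)) (f : Fin (n + 1) → Fin n),
      P (n + 1) G → u ≠ v → ¬ G.Adj u v → Function.Surjective f →
      (∀ x y, f x = f y ↔ (x = y ∨ (x = u ∧ y = v) ∨ (x = v ∧ y = u))) →
      (∀ p q, H.Adj p q ↔ ∃ x y, G.Adj x y ∧ f x = p ∧ f y = q) →
      Crit k H →
      P n H) ∧
    (∀ (a b m : ℕ) (G1 : SimpleGraph (Fin a)) (G2 : SimpleGraph (Fin b))
        (H : SimpleGraph (Fin m)) (x1 y1 : Fin a) (x2 y2 : Fin b)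
        (f1 : Fin a → Fin m) (f2 : Fin b → Fin m),
      P a G1 → P b G2 → G1.Adj x1 y1 → G2.Adj x2 y2 →
      Function.Injective f1 → Function.Injective f2 →
      (∀ i j, f1 i = f2 j ↔ (i = x1 ∧ j = x2)) →
      (∀ p, (∃ i, f1 i = p) ∨ ∃ j, f2 j = p) →
      (∀ p q, H.Adj p q ↔
        ((∃ i j, G1.Adj i j ∧ s(i, j) ≠ s(x1, y1) ∧ f1 i = p ∧ f1 j = q) ∨
         (∃ i j, G2.Adj i j ∧ s(i, j) ≠ s(x2, y2) ∧ f2 i = p ∧ f2 j = q) ∨
         s(p, q) = s(f1 y1, f2 y2))) →
      Crit k H →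
      P m H)


/-- The closure property written exactly as in the frozen statement (where `Sym2.mk` is curried). -/
def ClosedLit (k : ℕ) (P : (n : ℕ) → SimpleGraph (Fin n) → Prop) : Prop :=
    P k ⊤ ∧
    (∀ (n : ℕ) (G : SimpleGraph (Fin (n + 1))) (H : SimpleGraph (Fin n))
        (u v : Fin (n + 1)) (f : Fin (n + 1) → Fin n),
      P (n + 1) G → u ≠ v → ¬ G.Adj u v → Function.Surjective f →
      (∀ x y, f x = f y ↔ (x = y ∨ (x = u ∧ y = v) ∨ (x = v ∧ y = u))) →
      (∀ p q, H.Adj p q ↔ ∃ x y, G.Adj x y ∧ f x = p ∧ f y = q) →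
      Crit k H →
      P n H) ∧
    (∀ (a b m : ℕ) (G1 : SimpleGraph (Fin a)) (G2 : SimpleGraph (Fin b))
        (H : SimpleGraph (Fin m)) (x1 y1 : Fin a) (x2 y2 : Fin b)
        (f1 : Fin a → Fin m) (f2 : Fin b → Fin m),
      P a G1 → P b G2 → G1.Adj x1 y1 → G2.Adj x2 y2 →
      Function.Injective f1 → Function.Injective f2 →
      (∀ i j, f1 i = f2 j ↔ (i = x1 ∧ j = x2)) →
      (∀ p, (∃ i, f1 i = p) ∨ ∃ j, f2 j = p) →
      (∀ p q, H.Adj p q ↔
        ((∃ i j, G1.Adj i j ∧ Sym2.mk (i, j) ≠ Sym2.mk (x1, y1) ∧ f1 i = p ∧ f1 j = q) ∨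
         (∃ i j, G2.Adj i j ∧ Sym2.mk (i, j) ≠ Sym2.mk (x2, y2) ∧ f2 i = p ∧ f2 j = q) ∨
         Sym2.mk (p, q) = Sym2.mk (f1 y1, f2 y2))) →
      Crit k H →
      P m H)

/-- No edge `yz` of `G - x` is a bridge of `G - x`: there is a second path from `y` to `z`. -/
def Conn {n : ℕ} (G : SimpleGraph (Fin n)) : Prop :=
  ∀ x y z : Fin n, y ≠ x → z ≠ x → G.Adj y z →
    ∃ L : List (Fin n), L ≠ [] ∧ x ∉ L ∧ y ∉ L ∧ z ∉ L ∧ List.IsChain G.Adj (y :: (L ++ [z]))

/-- Flexibility: no splitting of a vertex destroys `(k-1)`-colourability. -/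
def Flex (k : ℕ) {n : ℕ} (G : SimpleGraph (Fin n)) : Prop :=
  ∀ w p q : Fin n, G.Adj w p → G.Adj w q → p ≠ q →
    ∃ (c : Fin n → Fin (k - 1)) (α β : Fin (k - 1)),
      (∀ x y, x ≠ w → y ≠ w → G.Adj x y → c x ≠ c y) ∧
      (∀ x, G.Adj w x → x ≠ q → c x ≠ α) ∧
      (∀ x, G.Adj w x → x ≠ p → c x ≠ β)

/-- The complete graph is critical (the part we need). -/
theorem top_not_colorable (k : ℕ) (hk : 1 ≤ k) : ¬ (⊤ : SimpleGraph (Fin k)).Colorable (k - 1) := by
  intro h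
  obtain ⟨c⟩ := h
  have hinj : Function.Injective c := by
    intro a b hab
    by_contra hne
    exact c.valid (v := a) (w := b) (by simpa using hne) hab
  have := Fintype.card_le_of_injective c hinj
  simp at this
  omega

theorem top_delete_colorable (k : ℕ) :
    ∀ e ∈ (⊤ : SimpleGraph (Fin k)).edgeSet,
      ((⊤ : SimpleGraph (Fin k)).deleteEdges {e}).Colorable (k - 1) := by
  intro e
  induction e using Sym2.ind with
  | _ a b =>
    intro he
    have hab : a ≠ b := by simpa using he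
    have hcard : Fintype.card {x : Fin k // x ≠ b} = Fintype.card (Fin (k - 1)) := by
      simp [Fintype.card_subtype_compl]
    let σ : {x : Fin k // x ≠ b} ≃ Fin (k - 1) := Fintype.equivOfCardEq hcard
    have key : ∀ x : Fin k, (if x = b then a else x) ≠ b := by
      intro x; split_ifs with h
      · exact hab
      · exact h
    refine ⟨SimpleGraph.Coloring.mk (fun x => σ ⟨if x = b then a else x, key x⟩) ?_⟩
    intro x y hxy heq
    rw [SimpleGraph.deleteEdges_adj] at hxy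
    obtain ⟨hne, hnot⟩ := hxy
    have hne' : x ≠ y := by simpa using hne
    have h1 := congrArg Subtype.val (σ.injective heq)
    simp only at h1
    by_cases hx : x = b
    · by_cases hy : y = b
      · exact hne' (hx.trans hy.symm)
      · rw [if_pos hx, if_neg hy] at h1
        apply hnot
        simp [hx, ← h1, Sym2.eq_swap]
    · by_cases hy : y = b
      · rw [if_neg hx, if_pos hy] at h1
        apply hnot
        simp [hy, h1]
      · rw [if_neg hx, if_neg hy] at h1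
        exact hne' h1

/-- The invariant: being (weakly) critical and not isomorphic to `G0`. -/
def Inv (k : ℕ) {n0 : ℕ} (G0 : SimpleGraph (Fin n0)) (n : ℕ) (G : SimpleGraph (Fin n)) : Prop :=
  (¬ G.Colorable (k - 1) ∧ (∀ e ∈ G.edgeSet, (G.deleteEdges {e}).Colorable (k - 1)) ∧
    ∀ x, ∃ y, G.Adj x y) ∧ IsEmpty (G ≃g G0)

/-- Domination is impossible in a critical graph. -/
theorem no_domination {k n : ℕ} {G : SimpleGraph (Fin n)} (h1 : ¬ G.Colorable (k - 1))
    (h2 : ∀ e ∈ G.edgeSet, (G.deleteEdges {e}).Colorable (k - 1))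
    (h3 : ∀ x, ∃ y, G.Adj x y) (u v : Fin n) (huv : u ≠ v) (hadj : ¬ G.Adj u v)
    (hdom : ∀ y, G.Adj u y → G.Adj v y) : False := by
  obtain ⟨x, hx⟩ := h3 u
  obtain ⟨c⟩ := h2 s(u, x) (by simpa using hx)
  apply h1
  refine ⟨SimpleGraph.Coloring.mk (fun y => if y = u then c v else c y) ?_⟩
  -- for an edge `a b` with neither end `u` use `c`
  have base : ∀ a b, G.Adj a b → a ≠ u → b ≠ u → c a ≠ c b := by
    intro a b hab ha hb
    apply c.valid
    rw [SimpleGraph.deleteEdges_adj]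
    refine ⟨hab, ?_⟩
    intro hmem
    rw [Set.mem_singleton_iff, Sym2.eq_iff] at hmem
    rcases hmem with ⟨h, _⟩ | ⟨_, h⟩
    · exact ha h
    · exact hb h
  intro a b hab
  by_cases ha : a = u
  · subst ha
    have hb : b ≠ a := hab.ne'
    simp only [if_true, if_neg hb]
    exact base v b (hdom b hab) huv.symm hb
  · by_cases hb : b = u
    · subst hb
      simp only [if_true, if_neg ha]
      exact (base v a (hdom a hab.symm) huv.symm ha).symm
    · simp only [if_neg ha, if_neg hb]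
      exact base a b hab ha hb

/-- Along a chain all of whose steps preserve a property, the property is preserved. -/
theorem chain_side {α : Type*} (r : α → α → Prop) (s : α → Prop) :
    ∀ (L : List α) (y z : α), List.IsChain r (y :: (L ++ [z])) →
      (∀ u v, r u v → (u ∈ y :: L) → (v ∈ L ++ [z]) → (u = y → v ≠ z) → s u → s v) →
      L ≠ [] → y ∉ L → z ∉ L → s y → s z := by
  intro L y z hch hstep hne hy hz hs
  -- general statement for chains starting inside `L`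
  have aux : ∀ (M : List α) (u : α), u ∈ L → (∀ v ∈ M, v ∈ L) → u ≠ y →
      List.IsChain r (u :: (M ++ [z])) → s u → s z := by
    intro M
    induction M with
    | nil =>
      intro u hu _ huy hc hsu
      have h1 : r u z := by simpa using hc
      exact hstep u z h1 (List.mem_cons_of_mem _ hu) (by simp) (fun h => absurd h huy) hsu
    | cons v M ih =>
      intro u hu hM huy hc hsu
      rw [List.cons_append, List.isChain_cons_cons] at hc
      have hv : v ∈ L := hM v (by simp)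
      have hvy : v ≠ y := fun h => hy (h ▸ hv)
      refine ih v hv (fun w hw => hM w (by simp [hw])) hvy hc.2 ?_
      exact hstep u v hc.1 (List.mem_cons_of_mem _ hu) (by simp [hv]) (fun h => absurd h huy) hsu
  cases L with
  | nil => exact absurd rfl hne
  | cons v M =>
    rw [List.cons_append, List.isChain_cons_cons] at hch
    have hvy : v ≠ y := fun h => hy (h ▸ (by simp))
    have hvz : v ≠ z := fun h => hz (h ▸ (by simp))
    refine aux M v (by simp) (fun w hw => by simp [hw]) hvy hch.2 ?_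
    exact hstep y v hch.1 (by simp) (by simp) (fun _ => hvz) hs

/-- A graph with the connectivity property is not a Hajos join. -/
theorem no_join {n0 : ℕ} (G0 : SimpleGraph (Fin n0)) (hcn : Conn G0)
    {a b m : ℕ} (G1 : SimpleGraph (Fin a)) (G2 : SimpleGraph (Fin b))
    (H : SimpleGraph (Fin m)) (x1 y1 : Fin a) (x2 y2 : Fin b)
    (f1 : Fin a → Fin m) (f2 : Fin b → Fin m)
    (hxy1 : G1.Adj x1 y1) (hxy2 : G2.Adj x2 y2)
    (hf1 : Function.Injective f1) (hf2 : Function.Injective f2)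
    (hf12 : ∀ i j, f1 i = f2 j ↔ (i = x1 ∧ j = x2))
    (hcov : ∀ p, (∃ i, f1 i = p) ∨ ∃ j, f2 j = p)
    (hH : ∀ p q, H.Adj p q →
        ((∃ i j, G1.Adj i j ∧ f1 i = p ∧ f1 j = q) ∨
         (∃ i j, G2.Adj i j ∧ f2 i = p ∧ f2 j = q) ∨
         (p = f1 y1 ∧ q = f2 y2) ∨ (p = f2 y2 ∧ q = f1 y1)))
    (hedge : H.Adj (f1 y1) (f2 y2)) (φ : H ≃g G0) : False := by
  have hx12 : f1 x1 = f2 x2 := (hf12 x1 x2).2 ⟨rfl, rfl⟩
  have hy1 : f1 y1 ≠ f1 x1 := fun h => hxy1.ne (hf1 h).symm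
  have hy2 : f2 y2 ≠ f1 x1 := by rw [hx12]; exact fun h => hxy2.ne (hf2 h).symm
  -- the only edge leaving side one away from the cut vertex
  have key : ∀ p q, H.Adj p q → p ≠ f1 x1 → q ≠ f1 x1 → (∃ i, f1 i = p) → (∃ j, f2 j = q) →
      p = f1 y1 ∧ q = f2 y2 := by
    intro p q hpq hp hq ⟨i, hi⟩ ⟨j, hj⟩
    rcases hH p q hpq with ⟨i', j', _, h3, h4⟩ | ⟨i', j', _, h3, h4⟩ | h | h
    · exfalso
      have := (hf12 j' j).1 (h4.trans hj.symm)
      exact hq (by rw [← h4, this.1])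
    · exfalso
      have := (hf12 i i').1 (hi.trans h3.symm)
      exact hp (by rw [← hi, this.1])
    · exact h
    · exfalso
      have := (hf12 i y2).1 (hi.trans h.1)
      exact hp (by rw [← hi, this.1])
  obtain ⟨L, hne, hxL, hyL, hzL, hch⟩ := hcn (φ (f1 x1)) (φ (f1 y1)) (φ (f2 y2))
    (fun h => hy1 (φ.injective h)) (fun h => hy2 (φ.injective h)) (φ.map_adj_iff.2 hedge)
  -- side one in `G0`
  have hfin := chain_side G0.Adj (fun v => ∃ i, φ (f1 i) = v) L (φ (f1 y1)) (φ (f2 y2)) hch ?_ hne hyL hzL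
    ⟨y1, rfl⟩
  · obtain ⟨i, hi⟩ := hfin
    have := (hf12 i y2).1 (φ.injective hi)
    exact hxy2.ne' this.2
  · intro u v huv hu hv hyz ⟨i, hi⟩
    have hux : u ≠ φ (f1 x1) := by
      intro h
      rcases List.mem_cons.1 hu with h' | h'
      · exact hy1 (φ.injective (h'.symm.trans h))
      · exact hxL (h ▸ h')
    have hvx : v ≠ φ (f1 x1) := by
      intro h
      rcases List.mem_append.1 hv with h' | h'
      · exact hxL (h ▸ h')
      · have h'' : v = φ (f2 y2) := by simpa using h'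
        exact hy2 (φ.injective (h''.symm.trans h))
    by_contra hcon
    -- then `v` is on side two only
    obtain ⟨j, hj⟩ : ∃ j, f2 j = φ.symm v := by
      rcases hcov (φ.symm v) with ⟨i', hi'⟩ | h
      · exfalso; apply hcon; exact ⟨i', by rw [hi']; simp⟩
      · exact h
    have hadj : H.Adj (f1 i) (φ.symm v) := by
      rw [← φ.map_adj_iff]
      simpa [hi] using huv
    have hk := key (f1 i) (φ.symm v) hadj (fun h => hux (by rw [← hi, h]))
      (fun h => hvx (by rw [← h]; simp)) ⟨i, rfl⟩ ⟨j, hj⟩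
    refine hyz (by rw [← hi, hk.1]) ?_
    rw [← hk.2]; simp

/-- The identification step. -/
theorem no_identification (k : ℕ) {n0 : ℕ} (G0 : SimpleGraph (Fin n0)) (hflex : Flex k G0)
    {n : ℕ} (G : SimpleGraph (Fin (n + 1))) (H : SimpleGraph (Fin n))
    (u v : Fin (n + 1)) (f : Fin (n + 1) → Fin n)
    (hG1 : ¬ G.Colorable (k - 1)) (hG2 : ∀ e ∈ G.edgeSet, (G.deleteEdges {e}).Colorable (k - 1))
    (hG3 : ∀ x, ∃ y, G.Adj x y) (huv : u ≠ v) (hadj : ¬ G.Adj u v)
    (hfe : ∀ x y, f x = f y ↔ (x = y ∨ (x = u ∧ y = v) ∨ (x = v ∧ y = u)))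
    (hH : ∀ p q, H.Adj p q ↔ ∃ x y, G.Adj x y ∧ f x = p ∧ f y = q) (φ : H ≃g G0) : False := by
  -- the composite map onto `G0`
  let g : Fin (n + 1) → Fin n0 := fun x => φ (f x)
  have hge : ∀ x y, g x = g y ↔ (x = y ∨ (x = u ∧ y = v) ∨ (x = v ∧ y = u)) := by
    intro x y
    rw [← hfe x y]
    exact φ.injective.eq_iff
  have hgadj : ∀ x y, G.Adj x y → G0.Adj (g x) (g y) := by
    intro x y hxy
    have : H.Adj (f x) (f y) := (hH _ _).2 ⟨x, y, hxy, rfl, rfl⟩
    exact φ.map_adj_iff.2 this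
  have hguv : g u = g v := (hge u v).2 (Or.inr (Or.inl ⟨rfl, rfl⟩))
  -- a neighbour of `u` not a neighbour of `v`
  have hp : ∃ p, G.Adj u p ∧ ¬ G.Adj v p := by
    by_contra hcon
    push Not at hcon
    exact no_domination hG1 hG2 hG3 u v huv hadj hcon
  have hq : ∃ q, G.Adj v q ∧ ¬ G.Adj u q := by
    by_contra hcon
    push Not at hcon
    exact no_domination hG1 hG2 hG3 v u huv.symm (fun h => hadj h.symm) hcon
  obtain ⟨p, hup, hvp⟩ := hp
  obtain ⟨q, hvq, huq⟩ := hq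
  have hpu : p ≠ u := hup.ne'
  have hpv : p ≠ v := fun h => hadj (h ▸ hup)
  have hqv : q ≠ v := hvq.ne'
  have hqu : q ≠ u := fun h => hadj ((h ▸ hvq : G.Adj v u)).symm
  have hpq : g p ≠ g q := by
    intro h
    rcases (hge p q).1 h with h | h | h
    · subst h; exact hvp hvq
    · exact hpu h.1
    · exact hpv h.1
  obtain ⟨c, α, β, hc1, hc2, hc3⟩ := hflex (g u) (g p) (g q) (hgadj _ _ hup)
    (hguv ▸ hgadj _ _ hvq) hpq
  -- colour `G`
  apply hG1
  have hgne : ∀ x, x ≠ u → x ≠ v → g x ≠ g u := by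
    intro x hxu hxv h
    rcases (hge x u).1 h with h | h | h
    · exact hxu h
    · exact hxu h.1
    · exact hxv h.1
  have hα : ∀ y, G.Adj u y → c (g y) ≠ α := by
    intro y hy
    apply hc2 _ (hgadj _ _ hy)
    intro h
    rcases (hge y q).1 h with h | h | h
    · subst h; exact huq hy
    · exact hqv h.2
    · exact hqu h.2
  have hβ : ∀ y, G.Adj v y → c (g y) ≠ β := by
    intro y hy
    apply hc3 _ (hguv ▸ hgadj _ _ hy)
    intro h
    rcases (hge y p).1 h with h | h | h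
    · subst h; exact hvp hy
    · exact hpv h.2
    · exact hpu h.2
  refine ⟨SimpleGraph.Coloring.mk
    (fun x => if x = u then α else if x = v then β else c (g x)) ?_⟩
  intro a b hab
  by_cases hau : a = u
  · subst hau
    have hbu : b ≠ a := hab.ne'
    have hbv : b ≠ v := fun h => hadj (h ▸ hab)
    simp only [if_true, if_neg hbu, if_neg hbv]
    exact (hα b hab).symm
  · by_cases hav : a = v
    · subst hav
      have hbv : b ≠ a := hab.ne'
      have hbu : b ≠ u := fun h => hadj ((h ▸ hab : G.Adj a u)).symm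
      simp only [if_true, if_neg hau, if_neg hbu, if_neg hbv]
      exact (hβ b hab).symm
    · by_cases hbu : b = u
      · subst hbu
        simp only [if_true, if_neg hau, if_neg hav]
        exact hα a hab.symm
      · by_cases hbv : b = v
        · subst hbv
          simp only [if_true, if_neg hau, if_neg hav, if_neg hbu]
          exact hβ a hab.symm
        · simp only [if_neg hau, if_neg hav, if_neg hbu, if_neg hbv]
          exact hc1 _ _ (hgne a hau hav) (hgne b hbu hbv) (hgadj _ _ hab)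

theorem inv_top (k : ℕ) (hk : 2 ≤ k) {n0 : ℕ} (G0 : SimpleGraph (Fin n0)) (hn : k ≠ n0) :
    Inv k G0 k ⊤ := by
  refine ⟨⟨top_not_colorable k (by omega), top_delete_colorable k, ?_⟩, ?_⟩
  · intro x
    have : Nontrivial (Fin k) := Fin.nontrivial_iff_two_le.mpr hk
    obtain ⟨y, hy⟩ := exists_ne x
    exact ⟨y, by simpa using hy.symm⟩
  · constructor
    intro φ
    have := Fintype.card_congr φ.toEquiv
    simp at this
    exact hn this

theorem inv_closed (k : ℕ) (hk : 2 ≤ k) {n0 : ℕ} (G0 : SimpleGraph (Fin n0)) (hn : k ≠ n0)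
    (hflex : Flex k G0) (hcn : Conn G0) : Closed k (Inv k G0) := by
  refine ⟨inv_top k hk G0 hn, ?_, ?_⟩
  · intro n G H u v f ⟨⟨hG1, hG2, hG3⟩, _⟩ huv hadj hf hfe hH hcrit
    exact ⟨⟨hcrit.2.1, hcrit.2.2.1, hcrit.2.2.2⟩,
      ⟨no_identification k G0 hflex G H u v f hG1 hG2 hG3 huv hadj hfe hH⟩⟩
  · intro a b m G1 G2 H x1 y1 x2 y2 f1 f2 _ _ hxy1 hxy2 hf1 hf2 hf12 hcov hH hcrit
    refine ⟨⟨hcrit.2.1, hcrit.2.2.1, hcrit.2.2.2⟩,
      ⟨no_join G0 hcn G1 G2 H x1 y1 x2 y2 f1 f2 hxy1 hxy2 hf1 hf2 hf12 hcov ?_ ?_⟩⟩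
    · intro p q hpq
      rcases (hH p q).1 hpq with ⟨i, j, h1, _, h2, h3⟩ | ⟨i, j, h1, _, h2, h3⟩ | h
      · exact Or.inl ⟨i, j, h1, h2, h3⟩
      · exact Or.inr (Or.inl ⟨i, j, h1, h2, h3⟩)
      · rw [Sym2.eq_iff] at h
        exact Or.inr (Or.inr h)
    · exact (hH _ _).2 (Or.inr (Or.inr rfl))

theorem inv_closedLit (k : ℕ) (hk : 2 ≤ k) {n0 : ℕ} (G0 : SimpleGraph (Fin n0)) (hn : k ≠ n0)
    (hflex : Flex k G0) (hcn : Conn G0) : ClosedLit k (Inv k G0) := by
  refine ⟨inv_top k hk G0 hn, ?_, ?_⟩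
  · intro n G H u v f ⟨⟨hG1, hG2, hG3⟩, _⟩ huv hadj hf hfe hH hcrit
    exact ⟨⟨hcrit.2.1, hcrit.2.2.1, hcrit.2.2.2⟩,
      ⟨no_identification k G0 hflex G H u v f hG1 hG2 hG3 huv hadj hfe hH⟩⟩
  · intro a b m G1 G2 H x1 y1 x2 y2 f1 f2 _ _ hxy1 hxy2 hf1 hf2 hf12 hcov hH hcrit
    refine ⟨⟨hcrit.2.1, hcrit.2.2.1, hcrit.2.2.2⟩,
      ⟨no_join G0 hcn G1 G2 H x1 y1 x2 y2 f1 f2 hxy1 hxy2 hf1 hf2 hf12 hcov ?_ ?_⟩⟩
    · intro p q hpq
      rcases (hH p q).1 hpq with ⟨i, j, h1, _, h2, h3⟩ | ⟨i, j, h1, _, h2, h3⟩ | h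
      · exact Or.inl ⟨i, j, h1, h2, h3⟩
      · exact Or.inr (Or.inl ⟨i, j, h1, h2, h3⟩)
      · have h' := congrFun h (p, q)
        rw [Sym2.eq_iff] at h'
        refine Or.inr (Or.inr (Or.inl ?_))
        rcases h' with h' | h'
        · exact ⟨congrArg Prod.fst h'.1, congrArg Prod.snd h'.1⟩
        · exact ⟨congrArg Prod.fst h'.2, congrArg Prod.snd h'.2⟩
    · exact (hH _ _).2 (Or.inr (Or.inr rfl))

theorem refute (k : ℕ) (hk : 2 ≤ k) {n0 : ℕ} (G0 : SimpleGraph (Fin n0)) (hn : k ≠ n0)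
    (hcrit : Crit k G0) (hflex : Flex k G0) (hcn : Conn G0) :
    ∃ P : (n : ℕ) → SimpleGraph (Fin n) → Prop, Closed k P ∧ ¬ P n0 G0 :=
  ⟨Inv k G0, inv_closed k hk G0 hn hflex hcn, fun h => h.2.false (SimpleGraph.Iso.refl)⟩

end Pool.Agent.H903R2.Hajos
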