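import Mathlib
import Pool.Agent.H903R2.Hajos

set_option autoImplicit false

namespace Pool.Agent.H903R2.Hajos

open SimpleGraph

/-! ### Transport along automorphisms -/

theorem flex_of_reps {k n : ℕ} (G : SimpleGraph (Fin n)) (R : Fin n → Prop)
    (haut : ∀ w, ∃ φ : G ≃g G, R (φ w))
    (h : ∀ w, R w → ∀ p, G.Adj w p → ∀ q, G.Adj w q → p ≠ q →
      ∃ (c : Fin n → Fin (k - 1)) (α β : Fin (k - 1)),
      (∀ x y, x ≠ w → y ≠ w → G.Adj x y → c x ≠ c y) ∧
      (∀ x, G.Adj w x → x ≠ q → c x ≠ α) ∧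
      (∀ x, G.Adj w x → x ≠ p → c x ≠ β)) : Flex k G := by
  intro w p q hp hq hpq
  obtain ⟨φ, hφ⟩ := haut w
  obtain ⟨c, α, β, h1, h2, h3⟩ := h (φ w) hφ (φ p) (φ.map_adj_iff.2 hp) (φ q)
    (φ.map_adj_iff.2 hq) (fun h => hpq (φ.injective h))
  refine ⟨fun x => c (φ x), α, β, ?_, ?_, ?_⟩
  · intro x y hx hy hxy
    exact h1 _ _ (fun h => hx (φ.injective h)) (fun h => hy (φ.injective h)) (φ.map_adj_iff.2 hxy)
  · intro x hx hxq
    exact h2 _ (φ.map_adj_iff.2 hx) (fun h => hxq (φ.injective h))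
  · intro x hx hxp
    exact h3 _ (φ.map_adj_iff.2 hx) (fun h => hxp (φ.injective h))

theorem del_of_reps {k n : ℕ} (G : SimpleGraph (Fin n)) (R : Fin n → Prop)
    (haut : ∀ w, ∃ φ : G ≃g G, R (φ w))
    (h : ∀ w, R w → ∀ b, G.Adj w b →
      ∃ c : Fin n → Fin (k - 1), ∀ x y, G.Adj x y → ¬ (x = w ∧ y = b) → ¬ (x = b ∧ y = w) →
        c x ≠ c y) :
    ∀ e ∈ G.edgeSet, (G.deleteEdges {e}).Colorable (k - 1) := by
  intro e
  induction e using Sym2.ind with
  | _ a b =>
    intro he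
    have hab : G.Adj a b := by simpa using he
    obtain ⟨φ, hφ⟩ := haut a
    obtain ⟨c, hc⟩ := h (φ a) hφ (φ b) (φ.map_adj_iff.2 hab)
    refine ⟨SimpleGraph.Coloring.mk (fun x => c (φ x)) ?_⟩
    intro x y hxy
    rw [SimpleGraph.deleteEdges_adj] at hxy
    obtain ⟨h1, h2⟩ := hxy
    apply hc _ _ (φ.map_adj_iff.2 h1)
    · rintro ⟨h3, h4⟩
      apply h2
      rw [φ.injective h3, φ.injective h4]
      simp
    · rintro ⟨h3, h4⟩
      apply h2
      rw [φ.injective h3, φ.injective h4, Sym2.eq_swap]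
      simp

theorem conn_of_reps {n : ℕ} (G : SimpleGraph (Fin n)) (R : Fin n → Prop)
    (haut : ∀ w, ∃ φ : G ≃g G, R (φ w))
    (h : ∀ y, R y → ∀ z, G.Adj y z → ∃ L M : List (Fin n),
      (L ≠ [] ∧ y ∉ L ∧ z ∉ L ∧ List.IsChain G.Adj (y :: (L ++ [z]))) ∧
      (M ≠ [] ∧ y ∉ M ∧ z ∉ M ∧ List.IsChain G.Adj (y :: (M ++ [z]))) ∧
      ∀ x, x ∉ L ∨ x ∉ M) : Conn G := by
  intro x y z _ _ hyz
  obtain ⟨φ, hφ⟩ := haut y
  obtain ⟨L, M, hL, hM, hLM⟩ := h (φ y) hφ (φ z) (φ.map_adj_iff.2 hyz)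
  have tr : ∀ N : List (Fin n), (N ≠ [] ∧ φ y ∉ N ∧ φ z ∉ N ∧
      List.IsChain G.Adj (φ y :: (N ++ [φ z]))) → φ x ∉ N →
      ∃ L : List (Fin n), L ≠ [] ∧ x ∉ L ∧ y ∉ L ∧ z ∉ L ∧ List.IsChain G.Adj (y :: (L ++ [z])) := by
    intro N ⟨h1, h2, h3, h4⟩ hx
    have hmem : ∀ u, u ∈ N.map φ.symm ↔ φ u ∈ N := by
      intro u
      rw [List.mem_map]
      constructor
      · rintro ⟨v, hv, rfl⟩; simpa using hv
      · intro hu; exact ⟨φ u, hu, by simp⟩
    refine ⟨N.map φ.symm, by simpa using h1, ?_, ?_, ?_, ?_⟩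
    · rwa [hmem]
    · rwa [hmem]
    · rwa [hmem]
    · have h5 : List.IsChain G.Adj ((φ y :: (N ++ [φ z])).map φ.symm) := by
        rw [List.isChain_map]
        refine h4.imp ?_
        intro a b hab
        exact φ.symm.map_adj_iff.2 hab
      simpa using h5
  rcases hLM (φ x) with hx | hx
  · exact tr L hL hx
  · exact tr M hM hx

/-! ### Non-colourability by counting -/

theorem not_colorable_of_three {n k : ℕ} (G : SimpleGraph (Fin n)) (hn : 2 * k < n)
    (h : ∀ a b c : Fin n, a < b → b < c → G.Adj a b ∨ G.Adj b c ∨ G.Adj a c) :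
    ¬ G.Colorable k := by
  rintro ⟨f⟩
  have hcard : (Finset.univ : Finset (Fin k)).card * 2 < (Finset.univ : Finset (Fin n)).card := by
    simp; omega
  obtain ⟨y, _, hy⟩ := Finset.exists_lt_card_fiber_of_mul_lt_card_of_maps_to
    (f := fun x : Fin n => (f x : Fin k)) (fun x _ => Finset.mem_univ _) hcard
  -- three ordered elements
  obtain ⟨T, hT, hT3⟩ := Finset.exists_subset_card_eq (Nat.succ_le_of_lt hy)
  let e := T.orderEmbOfFin hT3
  have hm : ∀ i, f (e i) = y := by
    intro i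
    have := hT (Finset.orderEmbOfFin_mem T hT3 i)
    simpa using this
  have h01 : e 0 < e 1 := e.strictMono (by decide)
  have h12 : e 1 < e 2 := e.strictMono (by decide)
  rcases h _ _ _ h01 h12 with h' | h' | h'
  · exact f.valid h' ((hm 0).trans (hm 1).symm)
  · exact f.valid h' ((hm 1).trans (hm 2).symm)
  · exact f.valid h' ((hm 0).trans (hm 2).symm)

/-! ### Non-colourability by search -/

/-- Colour `c` for vertex `i` is compatible with the colours `l` of the vertices below `j`. -/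
def compat (adj : ℕ → ℕ → Bool) (i c : ℕ) : ℕ → List ℕ → Bool
  | j + 1, d :: t => (!(adj i j) || !(Nat.beq d c)) && compat adj i c j t
  | _, _ => true

/-- Exhaustive search for a proper extension. -/
def search (adj : ℕ → ℕ → Bool) (k : ℕ) : ℕ → ℕ → List ℕ → Bool
  | 0, _, _ => true
  | f + 1, i, l => (List.range k).any
      (fun c => compat adj i c i l && search adj k f (i + 1) (c :: l))

/-- The colours of the vertices below `i`, highest first. -/
def pref (col : ℕ → ℕ) : ℕ → List ℕ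
  | 0 => []
  | i + 1 => col i :: pref col i

theorem compat_pref (adj : ℕ → ℕ → Bool) (col : ℕ → ℕ) (i c : ℕ) :
    ∀ j, (∀ j' < j, adj i j' = true → col j' ≠ c) → compat adj i c j (pref col j) = true := by
  intro j
  induction j with
  | zero => intro _; rfl
  | succ j ih =>
    intro h
    rw [pref, compat, ih (fun j' hj' => h j' (by omega)), Bool.and_true]
    by_cases ha : adj i j = true
    · have h1 := h j (by omega) ha
      have h2 : Nat.beq (col j) c = false := by
        rw [Bool.eq_false_iff]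
        intro h3
        exact h1 (Nat.eq_of_beq_eq_true h3)
      rw [ha, h2]; rfl
    · rw [Bool.not_eq_true] at ha
      rw [ha]; rfl

theorem search_sound (adj : ℕ → ℕ → Bool) (k n : ℕ) (col : ℕ → ℕ) (hcol : ∀ i < n, col i < k)
    (hprop : ∀ i < n, ∀ j < i, adj i j = true → col j ≠ col i) :
    ∀ f i, f + i = n → search adj k f i (pref col i) = true := by
  intro f
  induction f with
  | zero => intro i _; rfl
  | succ f ih =>
    intro i hi
    rw [search, List.any_eq_true]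
    refine ⟨col i, List.mem_range.2 (hcol i (by omega)), ?_⟩
    rw [compat_pref adj col i (col i) i (fun j hj ha => hprop i (by omega) j hj ha), Bool.true_and]
    exact ih (i + 1) (by omega)

theorem not_colorable_of_search {n k : ℕ} (G : SimpleGraph (Fin n)) (adj : ℕ → ℕ → Bool)
    (hadj : ∀ x y : Fin n, adj x.val y.val = true → G.Adj x y)
    (hs : search adj k n 0 [] = false) : ¬ G.Colorable k := by
  rintro ⟨f⟩
  let col : ℕ → ℕ := fun i => if h : i < n then (f ⟨i, h⟩ : Fin k).val else 0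
  have h1 : ∀ i < n, col i < k := by
    intro i hi
    simp only [col, dif_pos hi]
    exact (f ⟨i, hi⟩).isLt
  have h2 : ∀ i < n, ∀ j < i, adj i j = true → col j ≠ col i := by
    intro i hi j hj ha heq
    have hj' : j < n := by omega
    simp only [col, dif_pos hi, dif_pos hj'] at heq
    exact f.valid (hadj ⟨i, hi⟩ ⟨j, hj'⟩ ha).symm (Fin.ext heq)
  have h3 := search_sound adj k n col h1 h2 n 0 (by omega)
  rw [pref] at h3
  rw [h3] at hs
  exact Bool.noConfusion hs

end Pool.Agent.H903R2.Hajos
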