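import Mathlib
import Pool.Agent.H903R2.HajosCert

set_option autoImplicit false
set_option maxRecDepth 100000

namespace Pool.Agent.H903R2.Hajos.K6

open SimpleGraph

/-- Adjacency on natural numbers. -/
def adjN (a b : ℕ) : Bool :=
  Nat.beq ((a + 11 - b) % 11) 1 || Nat.beq ((a + 11 - b) % 11) 2 || Nat.beq ((a + 11 - b) % 11) 3 || Nat.beq ((a + 11 - b) % 11) 8 || Nat.beq ((a + 11 - b) % 11) 9 || Nat.beq ((a + 11 - b) % 11) 10

/-- Adjacency. -/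
def adjB (x y : Fin 11) : Bool := adjN x.val y.val

/-- The graph. -/
def G : SimpleGraph (Fin 11) where
  Adj x y := adjB x y = true
  symm := by
    have h : ∀ x y : Fin 11, adjB x y = true → adjB y x = true := by decide +kernel
    exact ⟨fun x y hxy => h x y hxy⟩
  loopless := ⟨by
    have h : ∀ x : Fin 11, ¬ adjB x x = true := by decide +kernel
    exact h⟩

instance : DecidableRel G.Adj := fun x y => inferInstanceAs (Decidable (adjB x y = true))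

/-- Rotation. -/
def rot (t : Fin 11) (x : Fin 11) : Fin 11 :=
  ⟨(x.val + t.val) % 11, Nat.mod_lt _ (by norm_num)⟩

/-- Rotation as an automorphism. -/
def rotIso (t : Fin 11) : G ≃g G where
  toFun := rot t
  invFun := rot (-t)
  left_inv := by
    have h : ∀ t : Fin 11, ∀ x : Fin 11, rot (-t) (rot t x) = x := by decide +kernel
    exact h t
  right_inv := by
    have h : ∀ t : Fin 11, ∀ x : Fin 11, rot t (rot (-t) x) = x := by decide +kernel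
    exact h t
  map_rel_iff' := by
    have h : ∀ t : Fin 11, ∀ x y : Fin 11, adjB (rot t x) (rot t y) = adjB x y := by decide +kernel
    intro x y
    change adjB (rot t x) (rot t y) = true ↔ adjB x y = true
    rw [h t x y]

/-- Representatives. -/
def R (w : Fin 11) : Prop := w = 0

instance : DecidablePred R := fun w => inferInstanceAs (Decidable (w = 0))

theorem haut : ∀ w : Fin 11, ∃ φ : G ≃g G, R (φ w) := by
  have h : ∀ w : Fin 11, ∃ t : Fin 11, R (rot t w) := by decide +kernel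
  intro w
  obtain ⟨t, ht⟩ := h w
  exact ⟨rotIso t, ht⟩

theorem colorable : G.Colorable 6 := by
  let c : Fin 11 → Fin 6 := ![0, 1, 2, 3, 0, 1, 4, 2, 3, 5, 4]
  have h : ∀ x y : Fin 11, adjB x y = true → ((![0, 1, 2, 3, 0, 1, 4, 2, 3, 5, 4] : Fin 11 → Fin 6) x ≠ (![0, 1, 2, 3, 0, 1, 4, 2, 3, 5, 4] : Fin 11 → Fin 6) y) := by decide +kernel
  exact ⟨SimpleGraph.Coloring.mk c (fun {x y} hxy => h x y hxy)⟩

theorem not_colorable : ¬ G.Colorable 5 := by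
  apply not_colorable_of_three G (by norm_num)
  have h : ∀ a b : Fin 11, a < b → ∀ c, b < c → adjB a b = true ∨ adjB b c = true ∨ adjB a c = true := by decide +kernel
  exact fun a b c hab hbc => h a b hab c hbc

/-- Colourings after deleting an edge. -/
def delTab (w b : Fin 11) : Fin 11 → Fin 5 :=
  if w = 0 ∧ b = 1 then ![0, 0, 1, 2, 3, 0, 4, 1, 2, 3, 4] else
  if w = 0 ∧ b = 2 then ![0, 1, 0, 2, 3, 1, 4, 0, 2, 3, 4] else
  if w = 0 ∧ b = 3 then ![0, 1, 2, 0, 3, 1, 4, 0, 2, 3, 4] else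
  if w = 0 ∧ b = 8 then ![0, 1, 2, 3, 0, 1, 4, 2, 0, 3, 4] else
  if w = 0 ∧ b = 9 then ![0, 1, 2, 3, 0, 1, 4, 2, 3, 0, 4] else
  if w = 0 ∧ b = 10 then ![0, 1, 2, 3, 0, 4, 1, 2, 3, 4, 0] else
  fun _ => 0

theorem delChk : ∀ w : Fin 11, R w → ∀ b, adjB w b = true → ∀ x y, adjB x y = true →
    ¬ (x = w ∧ y = b) → ¬ (x = b ∧ y = w) → delTab w b x ≠ delTab w b y := by
  decide +kernel

/-- Flexible colourings. -/
def flexTab (w p q : Fin 11) : (Fin 11 → Fin 5) × Fin 5 × Fin 5 :=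
  if w = 0 ∧ p = 1 then (
    if q = 2 then (![0, 0, 1, 2, 3, 0, 4, 1, 2, 3, 4], 1, 0) else
    if q = 3 then (![0, 0, 1, 2, 3, 0, 4, 2, 1, 3, 4], 2, 0) else
    if q = 8 then (![0, 0, 1, 2, 3, 0, 4, 1, 3, 2, 4], 3, 0) else
    if q = 9 then (![0, 0, 1, 2, 3, 0, 4, 1, 2, 3, 4], 3, 0) else
    if q = 10 then (![0, 0, 1, 2, 3, 0, 4, 1, 2, 3, 4], 4, 0) else
    (fun _ => 0, 0, 0)) else
  if w = 0 ∧ p = 2 then (
    if q = 1 then (![0, 0, 1, 2, 3, 0, 4, 1, 2, 3, 4], 0, 1) else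
    if q = 3 then (![0, 0, 1, 2, 3, 4, 1, 2, 0, 3, 4], 2, 1) else
    if q = 8 then (![0, 0, 1, 2, 3, 0, 4, 1, 3, 2, 4], 3, 1) else
    if q = 9 then (![0, 0, 1, 2, 3, 0, 4, 1, 2, 3, 4], 3, 1) else
    if q = 10 then (![0, 0, 1, 2, 3, 0, 4, 1, 2, 3, 4], 4, 1) else
    (fun _ => 0, 0, 0)) else
  if w = 0 ∧ p = 3 then (
    if q = 1 then (![0, 0, 1, 2, 3, 0, 4, 2, 1, 3, 4], 0, 2) else
    if q = 2 then (![0, 0, 1, 2, 3, 4, 1, 2, 0, 3, 4], 1, 2) else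
    if q = 8 then (![0, 0, 1, 2, 3, 0, 4, 2, 3, 1, 4], 3, 2) else
    if q = 9 then (![0, 0, 1, 2, 3, 0, 4, 2, 1, 3, 4], 3, 2) else
    if q = 10 then (![0, 0, 1, 2, 3, 0, 4, 2, 1, 3, 4], 4, 2) else
    (fun _ => 0, 0, 0)) else
  if w = 0 ∧ p = 8 then (
    if q = 1 then (![0, 0, 1, 2, 3, 0, 4, 1, 3, 2, 4], 0, 3) else
    if q = 2 then (![0, 0, 1, 2, 3, 0, 4, 1, 3, 2, 4], 1, 3) else
    if q = 3 then (![0, 0, 1, 2, 3, 0, 4, 2, 3, 1, 4], 2, 3) else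
    if q = 9 then (![0, 0, 1, 2, 3, 4, 0, 1, 3, 4, 2], 4, 3) else
    if q = 10 then (![0, 0, 1, 2, 3, 0, 4, 1, 3, 2, 4], 4, 3) else
    (fun _ => 0, 0, 0)) else
  if w = 0 ∧ p = 9 then (
    if q = 1 then (![0, 0, 1, 2, 3, 0, 4, 1, 2, 3, 4], 0, 3) else
    if q = 2 then (![0, 0, 1, 2, 3, 0, 4, 1, 2, 3, 4], 1, 3) else
    if q = 3 then (![0, 0, 1, 2, 3, 0, 4, 2, 1, 3, 4], 2, 3) else
    if q = 8 then (![0, 0, 1, 2, 3, 4, 0, 1, 3, 4, 2], 3, 4) else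
    if q = 10 then (![0, 0, 1, 2, 3, 0, 4, 1, 2, 3, 4], 4, 3) else
    (fun _ => 0, 0, 0)) else
  if w = 0 ∧ p = 10 then (
    if q = 1 then (![0, 0, 1, 2, 3, 0, 4, 1, 2, 3, 4], 0, 4) else
    if q = 2 then (![0, 0, 1, 2, 3, 0, 4, 1, 2, 3, 4], 1, 4) else
    if q = 3 then (![0, 0, 1, 2, 3, 0, 4, 2, 1, 3, 4], 2, 4) else
    if q = 8 then (![0, 0, 1, 2, 3, 0, 4, 1, 3, 2, 4], 3, 4) else
    if q = 9 then (![0, 0, 1, 2, 3, 0, 4, 1, 2, 3, 4], 3, 4) else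
    (fun _ => 0, 0, 0)) else
  (fun _ => 0, 0, 0)

theorem flexChk : ∀ w : Fin 11, R w → ∀ p, adjB w p = true → ∀ q, adjB w q = true → p ≠ q →
    (∀ x y, x ≠ w → y ≠ w → adjB x y = true → (flexTab w p q).1 x ≠ (flexTab w p q).1 y) ∧
    (∀ x, adjB w x = true → x ≠ q → (flexTab w p q).1 x ≠ (flexTab w p q).2.1) ∧
    (∀ x, adjB w x = true → x ≠ p → (flexTab w p q).1 x ≠ (flexTab w p q).2.2) := by
  decide +kernel

/-- Two disjoint detours for an edge. -/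
def pathTab (y z : Fin 11) : List (Fin 11) × List (Fin 11) :=
  if y = 0 ∧ z = 1 then ([2], [3]) else
  if y = 0 ∧ z = 2 then ([1], [3]) else
  if y = 0 ∧ z = 3 then ([1], [2]) else
  if y = 0 ∧ z = 8 then ([9], [10]) else
  if y = 0 ∧ z = 9 then ([1], [8]) else
  if y = 0 ∧ z = 10 then ([1], [2]) else
  ([], [])

theorem pathChk : ∀ y : Fin 11, R y → ∀ z, adjB y z = true →
    ((pathTab y z).1 ≠ [] ∧ y ∉ (pathTab y z).1 ∧ z ∉ (pathTab y z).1 ∧
      List.IsChain G.Adj (y :: ((pathTab y z).1 ++ [z]))) ∧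
    ((pathTab y z).2 ≠ [] ∧ y ∉ (pathTab y z).2 ∧ z ∉ (pathTab y z).2 ∧
      List.IsChain G.Adj (y :: ((pathTab y z).2 ++ [z]))) ∧
    ∀ x, x ∉ (pathTab y z).1 ∨ x ∉ (pathTab y z).2 := by
  decide +kernel

theorem crit : Crit 6 G := by
  refine ⟨colorable, not_colorable, ?_, ?_⟩
  · apply del_of_reps G R haut
    intro w hw b hb
    exact ⟨delTab w b, delChk w hw b hb⟩
  · have h : ∀ x : Fin 11, ∃ y, adjB x y = true := by decide +kernel
    exact h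

theorem flex : Flex 6 G := by
  apply flex_of_reps G R haut
  intro w hw p hp q hq hpq
  exact ⟨(flexTab w p q).1, (flexTab w p q).2.1, (flexTab w p q).2.2, flexChk w hw p hp q hq hpq⟩

theorem conn : Conn G := by
  apply conn_of_reps G R haut
  intro y hy z hz
  exact ⟨(pathTab y z).1, (pathTab y z).2, pathChk y hy z hz⟩

end Pool.Agent.H903R2.Hajos.K6
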